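import Pool.Agent.Helper12.LrFin

/-!
# The log-rank conjecture for `f (x + y)` with `f` given by a formula of depth three over parities

Let `f : F_2^n → {0,1}` be the disjunction of `M` formulas, each of which is the conjunction of an
arbitrary family of constraints of width `k`; a constraint of width `k` is a condition on `x` which
depends only on the values of `k` linear forms (parities of sets of bits). The number of the
constraints and the linear forms are arbitrary. Then the communication complexity of
`F (x, y) = f (x + y)` is at most `2 ^ k k (k + 1) (L + 2) (L + log M + 5) + 4`, where `L` is the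
logarithm of the real rank of `F`. So the bound of the log-rank conjecture holds for these functions,
and for their negations, for each fixed `k` and for `M` at most quasipolynomial in the rank.

Proof. The restriction of `f` to an affine subspace `V` is a function of the same kind. If it is not
zero then it is one with probability at least `1 / r` on `V`, `r` being the rank of the matrix
`f (x + y)` restricted to `V`. So one of the conjunctions has density at least `1 / (r M)` on `V`. Dense
conjunctions of this kind contain affine subspaces of small codimension. If `f` is constant on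
a subspace of codimension `D` in `V` then the players announce the cosets of their vectors, with `2 D`
bits; the rank `r` is replaced by at most `r / 2 + 1`, because the sum of two vectors in the same
coset is in the subspace on which `f` is constant.
-/

set_option autoImplicit false

namespace Pool.Agent.Results.MP_e5d384_lc.DepthThreeParities

/-- `F` has a deterministic two-party protocol with at most `B` bits (protocols as in the frozen
statement S15531: `t` is the transcript so far, `owner t` says who speaks, exactly `c` bits are
exchanged and the answer is read off the transcript). -/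
def HasProtocol {X Y : Type} (F : X → Y → Bool) (B : ℝ) : Prop :=
  ∃ (c : ℕ) (owner : List Bool → Bool) (a : List Bool → X → Bool) (b : List Bool → Y → Bool)
    (out : List Bool → Bool),
    (∀ x y, out (Nat.iterate
      (fun t : List Bool => t ++ [if owner t then a t x else b t y]) c []) = F x y) ∧ (c : ℝ) ≤ B

/-- The binary logarithm of the real rank of the communication matrix of `F`. -/
noncomputable def logRank {X Y : Type} [Fintype X] [Fintype Y] (F : X → Y → Bool) : ℝ :=
  Real.logb 2 ((Matrix.of fun (x : X) (y : Y) => if F x y then (1 : ℝ) else 0).rank : ℝ)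

/-- A constraint of width `k`: a condition `φ` on `z ∈ F_2^n` which depends only on the values of `k`
linear forms. -/
def IsConstraint (k n : ℕ) (φ : (Fin n → ZMod 2) → Prop) : Prop :=
  ∃ l : Fin k → ((Fin n → ZMod 2) →ₗ[ZMod 2] ZMod 2),
    ∀ z z', (∀ i, l i z = l i z') → (φ z ↔ φ z')

/-- A conjunction of an arbitrary family `Φ` of constraints of width `k`. -/
def IsConj (k n : ℕ) (F : (Fin n → ZMod 2) → Prop) : Prop :=
  ∃ Φ : Set ((Fin n → ZMod 2) → Prop), (∀ φ ∈ Φ, IsConstraint k n φ) ∧
    ∀ z, F z ↔ ∀ φ ∈ Φ, φ z

/-- `f` is the disjunction of `M` conjunctions of constraints of width `k`. -/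
def GivenBy (k n M : ℕ) (f : (Fin n → ZMod 2) → Bool) : Prop :=
  ∃ F : Fin M → (Fin n → ZMod 2) → Prop, (∀ i, IsConj k n (F i)) ∧
    ∀ z, f z = true ↔ ∃ i, F i z

/-- If `f` or its negation is a disjunction of `M` conjunctions of arbitrarily many constraints of
width `k` then `F (x, y) = f (x + y)` has a protocol with
`2 ^ k k (k + 1) (L + 2) (L + log₂ M + 5) + 4` bits, `L = log₂ rank F`. -/
theorem result : ∀ n k M : ℕ, 1 ≤ M → ∀ f : (Fin n → ZMod 2) → Bool,
    (GivenBy k n M f ∨ GivenBy k n M (fun z => !f z)) →
    HasProtocol (fun x y : Fin n → ZMod 2 => f (x + y))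
      (2 ^ k * (k * (k + 1)) * (logRank (fun x y : Fin n → ZMod 2 => f (x + y)) + 2) *
        (logRank (fun x y : Fin n → ZMod 2 => f (x + y)) + Real.logb 2 M + 5) + 4) := by
  intro n k M hM f hf
  have key : ∃ F : Fin M → (Fin n → ZMod 2) → Prop, (∀ i, IsConj k n (F i)) ∧
      ((∀ z, f z = true ↔ ∃ i, F i z) ∨ (∀ z, f z = false ↔ ∃ i, F i z)) := by
    rcases hf with ⟨F, hF, h⟩ | ⟨F, hF, h⟩
    · exact ⟨F, hF, Or.inl h⟩
    · refine ⟨F, hF, Or.inr fun z => ?_⟩
      rw [← h]
      show f z = false ↔ (!f z) = true
      cases f z <;> simp
  obtain ⟨F, hF, h⟩ := key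
  obtain ⟨c, ⟨ow, a, b, out, hc⟩, hb⟩ := Pool.Agent.Helper12.Lr.final' hM F hF h rfl
  exact ⟨c, ow, a, b, out, hc, hb⟩

end Pool.Agent.Results.MP_e5d384_lc.DepthThreeParities
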