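import Pool.Agent.V11160.LR.Pieces

/-!
# The log-rank conjecture for matrices whose rows are cosets (solution sets of linear systems)

Let `Y` be a finite abelian group (for instance `F_2^n`), `X` a finite set and `F : X × Y → {0,1}`.
Suppose that for every `x` the set `{y | F(x, y) = 1}`, or its complement, is closed under
`u - v + w`; in other words it is empty or a coset of a subgroup of `Y` (for `Y = F_2^n`: the set of
solutions of a system of linear equations), with no restriction on how it depends on `x`. Then, with
`ρ = log₂ rank F`, `F` has at most `2 ^ (4 (ρ + 2) ^ 2 + 1)` different rows and `D(F) ≤ 4 (ρ + 2) ^ 2 + 4`.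
More generally `Y` may be any finite set covered by `t` pieces, each of which is the image of a finite
abelian group in which the rows have this property; then `D(F) ≤ 4 (ρ + 2) ^ 2 + log₂ t + 4`.

For `Y = F_2^n` the operation `u - v + w = u + v + w` acts on each bit. Among the idempotent operations
on bits it is exceptional: if `f` is a nonconstant monotone Boolean function (AND, OR, majority, ...)
then every function `F` is the restriction of a function of the same rank all of whose rows are closed
under `f`.
-/

set_option autoImplicit false

namespace Pool.Agent.Results.MP_e5d384_lc.MalcevRows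

/-- the real communication matrix -/
noncomputable def comm {X Y : Type} (F : X → Y → Bool) : Matrix X Y ℝ :=
  Matrix.of (fun x y => if F x y then (1 : ℝ) else 0)

/-- `F` has a deterministic two-party protocol with exactly `c` bits, in the model of the frozen
statement S15531: `t` is the transcript so far and `owner t` says who speaks. -/
def Proto {X Y : Type} (F : X → Y → Bool) (c : ℕ) : Prop :=
  ∃ (owner : List Bool → Bool) (a : List Bool → X → Bool) (b : List Bool → Y → Bool)
    (out : List Bool → Bool), ∀ x y,
      out (Nat.iterate (fun t : List Bool => t ++ [if owner t then a t x else b t y]) c []) = F x y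

/-- `{y | ρ y = b}` is closed under `u - v + w` (it is empty or a coset of a subgroup). -/
def MalcevClosed {Y : Type} [AddCommGroup Y] (ρ : Y → Bool) (b : Bool) : Prop :=
  ∀ u v w, ρ u = b → ρ v = b → ρ w = b → ρ (u - v + w) = b

/-- `{y | ρ y = 1}` is closed under the Boolean operation `f`, applied bit by bit. -/
def BitClosed {k N : ℕ} (f : (Fin k → Bool) → Bool) (ρ : (Fin N → Bool) → Bool) : Prop :=
  ∀ w : Fin k → Fin N → Bool, (∀ l, ρ (w l) = true) → ρ (fun i => f fun l => w l i) = true

/-- **Main result.** -/
theorem result :
    -- protocols: the columns are covered by the images of `t` finite abelian groups, in each of which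
    -- the rows are cosets or complements of cosets
    (∀ {X Y : Type} [Fintype X] [Fintype Y] {t : ℕ} (A : Fin t → Type) [∀ i, AddCommGroup (A i)]
      [∀ i, Fintype (A i)] (φ : ∀ i, A i → Y), (∀ y, ∃ i a, φ i a = y) →
      ∀ F : X → Y → Bool, (∀ x i, ∃ b, MalcevClosed (fun a => F x (φ i a)) b) →
      ∃ c : ℕ, Proto F c ∧
        (c : ℝ) ≤ 4 * (Real.logb 2 (comm F).rank + 2) ^ 2 + Real.logb 2 t + 4) ∧
    -- the number of different rows (one group)
    (∀ {X Y : Type} [Fintype X] [AddCommGroup Y] [Fintype Y] (F : X → Y → Bool),
      (∀ x, ∃ b, MalcevClosed (F x) b) →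
      ((Set.range F).ncard : ℝ) ≤ 2 ^ (4 * (Real.logb 2 (comm F).rank + 2) ^ 2 + 1 : ℝ)) ∧
    -- rows closed under a monotone operation: as hard as the general case
    (∀ {k : ℕ} (f : (Fin k → Bool) → Bool), Monotone f → f (fun _ => false) = false →
      f (fun _ => true) = true → ∀ {X : Type} [Fintype X] {N : ℕ} (F : X → Fin N → Bool),
      ∃ (F' : X → (Fin N → Bool) → Bool) (e : Fin N → (Fin N → Bool)),
        (∀ x, BitClosed f (F' x)) ∧ (comm F').rank = (comm F).rank ∧
        ∀ x j, F' x (e j) = F x j) := by
  refine ⟨?_, ?_, ?_⟩
  · intro X Y _ _ t A _ _ φ hφ F hF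
    exact Pool.Agent.V11160.LR.proto_pieces A φ hφ F hF
  · intro X Y _ _ _ F hF
    exact (Pool.Agent.V11160.LR.proto_of_closed F hF).1
  · intro k f hmono h0 h1 X _ N F
    refine ⟨Pool.Agent.V11160.LR.chainFun F, Pool.Agent.V11160.LR.chain, ?_,
      Pool.Agent.V11160.LR.chainFun_rank F, Pool.Agent.V11160.LR.chainFun_chain F⟩
    intro x w hw
    have h2 : ∀ l, ∃ j, w l = Pool.Agent.V11160.LR.chain j ∧ F x j = true := by
      intro l
      have := hw l
      unfold Pool.Agent.V11160.LR.chainFun at this
      rwa [decide_eq_true_eq] at this
    choose j hj hFj using h2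
    obtain ⟨l, hl⟩ := Pool.Agent.V11160.LR.chain_closed f hmono h0 h1 j
    have h3 : (fun i => f fun l => w l i) = Pool.Agent.V11160.LR.chain (j l) := by
      rw [← hl]
      funext i
      congr 1
      funext l'
      rw [hj l']
    rw [h3, Pool.Agent.V11160.LR.chainFun_chain]
    exact hFj l

end Pool.Agent.Results.MP_e5d384_lc.MalcevRows
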