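import Pool.Agent.V11160.LR.Ops

/-!
# The log-rank conjecture for sets of rows closed under Boolean operations

Let `F : X × Y → {0,1}` and let `f_y` be a Boolean function of `k` variables for every column `y`, not
constant and not of the form `v ↦ v_i` or `v ↦ 1 - v_i`; the `f_y` need not be related to each other.
Suppose that for all rows number `x_1, ..., x_k` the vector `(f_y (F(x_1,y), ..., F(x_k,y)))_y` is again
a row, or at least lies in the affine hull of the rows. Then `F` has at most `rank F` nonconstant
columns up to complements (pairwise different and not complementary nonconstant columns are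
linearly independent), so `D(F) ≤ log₂ (rank F + 1) + 3`; the general lower bound is
`D(F) ≥ log₂ (rank F)`.
-/

set_option autoImplicit false

namespace Pool.Agent.Results.MP_e5d384_lc.RowsClosedUnderOperations

/-- the real communication matrix -/
noncomputable def comm {X Y : Type} (F : X → Y → Bool) : Matrix X Y ℝ :=
  Matrix.of (fun x y => if F x y then (1 : ℝ) else 0)

/-- `F` has a deterministic two-party protocol with exactly `c` bits, in the model of the frozen
statement S15531: `t` is the transcript so far and `owner t` says who speaks. -/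
def Proto {X Y : Type} (F : X → Y → Bool) (c : ℕ) : Prop :=
  ∃ (owner : List Bool → Bool) (a : List Bool → X → Bool) (b : List Bool → Y → Bool)
    (out : List Bool → Bool), ∀ x y,
      out (Nat.iterate (fun t : List Bool => t ++ [if owner t then a t x else b t y]) c []) = F x y

/-- `f` is constant, a variable, or the negation of a variable. -/
def Unary {k : ℕ} (f : (Fin k → Bool) → Bool) : Prop :=
  (∃ c, ∀ v, f v = c) ∨ ∃ i c, ∀ v, f v = xor c (v i)

/-- `0` or `1` -/
def bit (b : Bool) : ℝ := if b then 1 else 0

/-- For all rows number `w 1, ..., w k` the vector `(f_y (F (w 1) y, ..., F (w k) y))_y` lies in the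
affine hull of the rows of `F` (for instance, it is a row of `F`). -/
def HullClosed {X Y : Type} [Fintype X] {k : ℕ} (F : X → Y → Bool)
    (f : Y → (Fin k → Bool) → Bool) : Prop :=
  ∀ w : Fin k → X, ∃ c : X → ℝ, ∑ x, c x = 1 ∧
    ∀ y, bit (f y fun l => F (w l) y) = ∑ x, c x * bit (F x y)

/-- **Main result.** -/
theorem result {X Y : Type} [Fintype X] [Fintype Y] {k : ℕ} (F : X → Y → Bool)
    (f : Y → (Fin k → Bool) → Bool) (hf : ∀ y, ¬ Unary (f y)) (hcl : HullClosed F f) :
    -- protocols
    (∃ c : ℕ, Proto F c ∧ (c : ℝ) ≤ Real.logb 2 ((comm F).rank + 1 : ℕ) + 3) ∧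
    -- pairwise different, pairwise not complementary, nonconstant columns: at most `rank F`
    (∀ S : Finset Y, (∀ y ∈ S, ∃ x x', F x y ≠ F x' y) →
      (∀ y ∈ S, ∀ y' ∈ S, y ≠ y' → (∃ x, F x y ≠ F x y') ∧ ∃ x, F x y = F x y') →
      S.card ≤ (comm F).rank) ∧
    -- special case: the set of rows is closed under the operations
    (∀ {f' : Y → (Fin k → Bool) → Bool}, (∀ w : Fin k → X, ∃ x, ∀ y, F x y = f' y fun l => F (w l) y) →
      HullClosed F f') := by
  classical
  refine ⟨Pool.Agent.V11160.LR.proto_ops F f hf hcl, ?_, ?_⟩
  · intro S h0 h1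
    rcases isEmpty_or_nonempty X with hX | ⟨⟨x₀⟩⟩
    · have : S = ∅ := by
        rw [Finset.eq_empty_iff_forall_notMem]
        intro y hy
        obtain ⟨x, _⟩ := h0 y hy
        exact hX.false x
      rw [this]
      simp
    · refine Pool.Agent.V11160.LR.card_le_rank F x₀ f hf hcl S ?_ ?_
      · intro y hy h
        obtain ⟨x, x', hxx⟩ := h0 y hy
        have e1 := congrFun h x
        have e2 := congrFun h x'
        unfold Pool.Agent.V11160.LR.ncol at e1 e2
        cases h3 : F x y <;> cases h4 : F x' y <;> cases h5 : F x₀ y <;> simp_all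
      · intro y hy y' hy' h
        by_contra hne
        obtain ⟨⟨x, hx⟩, ⟨x', hx'⟩⟩ := h1 y hy y' hy' hne
        have e1 := congrFun h x
        have e2 := congrFun h x'
        unfold Pool.Agent.V11160.LR.ncol at e1 e2
        cases h3 : F x y <;> cases h4 : F x y' <;> cases h5 : F x' y <;> cases h6 : F x' y' <;>
          cases h7 : F x₀ y <;> cases h8 : F x₀ y' <;> simp_all
  · intro f' h w
    obtain ⟨x, hx⟩ := h w
    refine ⟨fun x' => if x' = x then 1 else 0, by simp, ?_⟩
    intro y
    rw [← hx y]
    simp

end Pool.Agent.Results.MP_e5d384_lc.RowsClosedUnderOperations
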